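import Pool.Agent.W95.EQ.Stm

/-! Project EQM, part ATM: small balls of mass at least `η` shrink to an atom. -/

set_option autoImplicit false

open Polynomial Topology Filter MeasureTheory
open scoped ENNReal

namespace Pool.Agent.W935.EQ

open Pool.Agent.W95.BK Pool.Agent.W95.EQ

universe u

section
variable {K : Type u} [NontriviallyNormedField K]

lemma ba_neg (y : BA K) (f : K[X]) : y (-f) = y f := by
  have h : -f = C (-1 : K) * f := by simp
  rw [h, y.map_mul', y.map_C']
  simp

lemma ba_sub (y : BA K) (f g : K[X]) : y (f - g) ≤ max (y f) (y g) := by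
  rw [sub_eq_add_neg, ← ba_neg y g]
  exact y.map_add' f (-g)

lemma lam_nonneg (y : BA K) (c : K) : 0 ≤ lam y c := y.nonneg' _

lemma lam_tri1 (y : BA K) (c c' : K) : lam y c ≤ max ‖c - c'‖ (lam y c') := by
  have h : X - C c = (X - C c') - C (c - c') := by rw [C_sub]; ring
  unfold lam
  rw [h, max_comm, ← y.map_C' (c - c')]
  exact ba_sub y _ _

lemma lam_tri2 (y : BA K) (c c' : K) :
    lam y c * ‖c'‖ ≤ max (‖c - c'‖ * y X) (lam y c' * ‖c‖) := by
  have h : (X - C c) * C c' = (X - C c') * C c - C (c - c') * X := by rw [C_sub]; ring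
  have h2 := ba_sub y ((X - C c') * C c) (C (c - c') * X)
  rw [← h, y.map_mul', y.map_mul', y.map_mul', y.map_C', y.map_C', y.map_C'] at h2
  rw [max_comm]
  exact h2

lemma norm_tri (y : BA K) (c : K) : ‖c‖ ≤ max (y X) (lam y c) := by
  have h : C c = X - (X - C c) := by ring
  rw [← y.map_C' c, h]
  exact ba_sub y _ _

lemma lam_le (y : BA K) (c : K) : lam y c ≤ max (y X) ‖c‖ := by
  rw [← y.map_C' c]
  exact ba_sub y _ _

lemma norm_tri2 (y : BA K) (c c' : K) : ‖c - c'‖ ≤ max (lam y c) (lam y c') := by
  have h : C (c - c') = (X - C c') - (X - C c) := by rw [C_sub]; ring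
  rw [← y.map_C' (c - c'), h, max_comm]
  exact ba_sub y _ _

lemma main_tri (y : BA K) (c c' : K) : lam y c * max 1 ‖c'‖ ≤
    max (‖c - c'‖ * max 1 (y X)) (lam y c' * max 1 ‖c‖) := by
  rw [mul_max_of_nonneg _ _ (lam_nonneg y c), mul_one]
  refine max_le ((lam_tri1 y c c').trans ?_) ((lam_tri2 y c c').trans ?_)
  · refine max_le_max ?_ ?_
    · exact le_mul_of_one_le_right (norm_nonneg _) (le_max_left _ _)
    · exact le_mul_of_one_le_right (lam_nonneg _ _) (le_max_left _ _)
  · refine max_le_max ?_ ?_
    · exact mul_le_mul_of_nonneg_left (le_max_right _ _) (norm_nonneg _)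
    · exact mul_le_mul_of_nonneg_left (le_max_right _ _) (lam_nonneg _ _)

lemma m_pos (r : ℝ) : 0 < max 1 r := lt_max_of_lt_left one_pos

variable [IsUltrametricDist K]

lemma nu_tri (o o' : Option K) (z : P1B K) : nu o z ≤ max (nu o' (pt o)) (nu o' z) := by
  induction z using OnePoint.rec with
  | infty =>
    cases o with
    | none =>
      cases o' with
      | none => exact le_max_right _ _
      | some c' =>
        refine le_trans (b := 0) le_rfl (le_max_of_le_right ?_)
        change 0 ≤ 1 / max 1 ‖c'‖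
        exact div_nonneg zero_le_one (m_pos _).le
    | some c =>
      cases o' with
      | none =>
        refine le_max_of_le_left ?_
        change 1 / max 1 ‖c‖ ≤ 1 / max 1 ((cl c : BA K) X)
        change 1 / max 1 ‖c‖ ≤ 1 / max 1 ‖eval c X‖
        rw [eval_X]
      | some c' =>
        change 1 / max 1 ‖c‖ ≤ max (‖eval c (X - C c')‖ / (max 1 ‖eval c X‖ * max 1 ‖c'‖))
          (1 / max 1 ‖c'‖)
        rw [eval_X, eval_sub, eval_X, eval_C]
        have h1 : max 1 ‖c'‖ ≤ max ‖c - c'‖ (max 1 ‖c‖) := by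
          refine max_le (le_max_of_le_right (le_max_left _ _)) ?_
          have h2 := IsUltrametricDist.norm_add_le_max c (c' - c)
          rw [add_sub_cancel, norm_sub_rev] at h2
          refine h2.trans (max_le (le_max_of_le_right (le_max_right _ _)) (le_max_left _ _))
        rcases le_max_iff.1 h1 with h | h
        · refine le_max_of_le_left ?_
          rw [div_le_div_iff₀ (m_pos _) (mul_pos (m_pos _) (m_pos _)), one_mul, mul_comm]
          exact mul_le_mul_of_nonneg_right h (m_pos _).le
        · refine le_max_of_le_right ?_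
          exact one_div_le_one_div_of_le (m_pos _) h
  | coe y =>
    cases o with
    | none =>
      cases o' with
      | none => exact le_max_right _ _
      | some c' =>
        change 1 / max 1 (y X) ≤ max (1 / max 1 ‖c'‖) (lam y c' / (max 1 (y X) * max 1 ‖c'‖))
        have h1 : max 1 ‖c'‖ ≤ max (max 1 (y X)) (lam y c') := by
          refine max_le (le_max_of_le_left (le_max_left _ _)) ?_
          refine (norm_tri y c').trans (max_le_max (le_max_right _ _) le_rfl)
        rcases le_max_iff.1 h1 with h | h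
        · refine le_max_of_le_left ?_
          exact one_div_le_one_div_of_le (m_pos _) h
        · refine le_max_of_le_right ?_
          rw [div_le_div_iff₀ (m_pos _) (mul_pos (m_pos _) (m_pos _)), one_mul, mul_comm]
          exact mul_le_mul_of_nonneg_right h (m_pos _).le
    | some c =>
      cases o' with
      | none =>
        change lam y c / (max 1 (y X) * max 1 ‖c‖) ≤ max (1 / max 1 ‖eval c X‖) (1 / max 1 (y X))
        rw [eval_X]
        have h1 : lam y c ≤ max (max 1 (y X)) (max 1 ‖c‖) :=
          (lam_le y c).trans (max_le_max (le_max_right _ _) (le_max_right _ _))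
        rcases le_max_iff.1 h1 with h | h
        · refine le_max_of_le_left ?_
          rw [div_le_div_iff₀ (mul_pos (m_pos _) (m_pos _)) (m_pos _), one_mul]
          exact mul_le_mul_of_nonneg_right h (m_pos _).le
        · refine le_max_of_le_right ?_
          rw [div_le_div_iff₀ (mul_pos (m_pos _) (m_pos _)) (m_pos _), one_mul, mul_comm]
          exact mul_le_mul_of_nonneg_left h (m_pos _).le
      | some c' =>
        change lam y c / (max 1 (y X) * max 1 ‖c‖) ≤
          max (‖eval c (X - C c')‖ / (max 1 ‖eval c X‖ * max 1 ‖c'‖))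
            (lam y c' / (max 1 (y X) * max 1 ‖c'‖))
        rw [eval_X, eval_sub, eval_X, eval_C]
        rcases le_max_iff.1 (main_tri y c c') with h | h
        · refine le_max_of_le_left ?_
          rw [div_le_div_iff₀ (mul_pos (m_pos _) (m_pos _)) (mul_pos (m_pos _) (m_pos _))]
          have := mul_le_mul_of_nonneg_right h (m_pos ‖c‖).le
          linarith
        · refine le_max_of_le_right ?_
          rw [div_le_div_iff₀ (mul_pos (m_pos _) (m_pos _)) (mul_pos (m_pos _) (m_pos _))]
          have := mul_le_mul_of_nonneg_right h (m_pos (y X)).le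
          linarith

lemma classical [CompleteSpace K] (y : BA K) (h : ∀ ε : ℝ, 0 < ε → ∃ a : K, lam y a < ε) :
    ∃ c : K, y = cl c := by
  have hb : ∀ k : ℕ, ∃ a : K, lam y a < (1 / 2 : ℝ) ^ k := fun k => h _ (by positivity)
  choose b hb using hb
  have hc : CauchySeq b := by
    refine cauchySeq_of_le_tendsto_0 (fun N => (1 / 2 : ℝ) ^ N) ?_
      (tendsto_pow_atTop_nhds_zero_of_lt_one (by norm_num) (by norm_num))
    intro n m N hn hm
    rw [dist_eq_norm]
    refine (norm_tri2 y (b n) (b m)).trans (max_le ((hb n).le.trans ?_) ((hb m).le.trans ?_))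
    · exact pow_le_pow_of_le_one (by norm_num) (by norm_num) hn
    · exact pow_le_pow_of_le_one (by norm_num) (by norm_num) hm
  obtain ⟨c, hc⟩ := cauchySeq_tendsto_of_complete hc
  have h0 : lam y c = 0 := by
    refine le_antisymm ?_ (lam_nonneg y c)
    have h1 : Tendsto (fun k => max ‖c - b k‖ ((1 / 2 : ℝ) ^ k)) atTop (𝓝 (max ‖c - c‖ 0)) :=
      (tendsto_const_nhds.sub hc).norm.max
        (tendsto_pow_atTop_nhds_zero_of_lt_one (by norm_num) (by norm_num))
    rw [sub_self, norm_zero, max_self] at h1
    exact ge_of_tendsto' h1 fun k =>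
      (lam_tri1 y c (b k)).trans (max_le_max le_rfl (hb k).le)
  refine ⟨c, BA.ext fun f => ?_⟩
  change y f = ‖f.eval c‖
  obtain ⟨g, hg⟩ := X_sub_C_dvd_sub_C_eval (a := c) (p := f)
  have hz : y (f - C (f.eval c)) = 0 := by
    rw [hg, y.map_mul']
    change lam y c * y g = 0
    rw [h0, zero_mul]
  refine le_antisymm ?_ ?_
  · have h1 : f = (f - C (f.eval c)) + C (f.eval c) := by ring
    have h2 := y.map_add' (f - C (f.eval c)) (C (f.eval c))
    rw [← h1, hz, y.map_C', max_eq_right (norm_nonneg _)] at h2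
    exact h2
  · have h1 : C (f.eval c) = f - (f - C (f.eval c)) := by ring
    have h2 := ba_sub y f (f - C (f.eval c))
    rw [← h1, hz, y.map_C', max_eq_left (y.nonneg' f)] at h2
    exact h2

lemma classical' [CompleteSpace K] (x : P1B K) (o : ℕ → Option K) (δ : ℕ → ℝ)
    (hδ : Tendsto δ atTop (𝓝 0)) (hx : ∃ᶠ n in atTop, nu (o n) x ≤ δ n) :
    ∃ o : Option K, x = pt o := by
  induction x using OnePoint.rec with
  | infty => exact ⟨none, rfl⟩
  | coe y =>
    suffices h : ∃ c : K, y = cl c by
      obtain ⟨c, rfl⟩ := h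
      exact ⟨some c, rfl⟩
    apply classical
    intro ε hε
    set Y : ℝ := max 1 (y X) with hY
    have hY0 : 0 < Y := m_pos _
    have hY1 : 1 ≤ Y := le_max_left _ _
    have hev : ∀ᶠ n in atTop, δ n < min (1 / Y) (ε / Y ^ 2) :=
      hδ.eventually_lt_const (lt_min (by positivity) (by positivity))
    obtain ⟨n, hn, hn2⟩ := (hx.and_eventually hev).exists
    have h1 := hn.trans_lt hn2
    cases ho : o n with
    | none =>
      rw [ho] at h1
      have h2 : nu none ((y : BA K) : P1B K) = 1 / Y := rfl
      rw [h2] at h1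
      exact absurd (h1.trans_le (min_le_left _ _)) (lt_irrefl _)
    | some a =>
      rw [ho] at h1
      have h2 : nu (some a) ((y : BA K) : P1B K) = lam y a / (Y * max 1 ‖a‖) := rfl
      rw [h2] at h1
      have hm := m_pos ‖a‖
      have h3 : lam y a < max 1 ‖a‖ := by
        have := h1.trans_le (min_le_left _ _)
        rw [div_lt_div_iff₀ (by positivity) hY0] at this
        nlinarith
      have h4 : ‖a‖ ≤ Y := by
        by_contra h
        push Not at h
        have h5 := norm_tri y a
        have h6 : max 1 ‖a‖ = ‖a‖ := max_eq_right (by linarith)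
        rw [h6] at h3
        rcases le_max_iff.1 h5 with h7 | h7
        · exact absurd (h7.trans (le_max_right 1 (y X))) (not_le.2 h)
        · linarith
      refine ⟨a, ?_⟩
      have h5 := h1.trans_le (min_le_right _ _)
      rw [div_lt_div_iff₀ (by positivity) (by positivity)] at h5
      have h6 : max 1 ‖a‖ ≤ Y := max_le hY1 h4
      have h7 : ε * (Y * max 1 ‖a‖) ≤ ε * Y ^ 2 := by
        rw [sq]
        gcongr
      have h8 : lam y a * Y ^ 2 < ε * Y ^ 2 := h5.trans_le h7
      exact lt_of_mul_lt_mul_right h8 (by positivity)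

omit [IsUltrametricDist K] in
lemma sub_ball (a : K) (r t : ℝ) (hr : 0 < r) (x : P1B K) (hx : t ≤ qk a r x) :
    nu (if r ≤ max 1 ‖a‖ then some a else none) x ≤ Real.exp (-t) := by
  have hM : 0 < max 1 (max ‖a‖ r) := m_pos _
  induction x using OnePoint.rec with
  | infty =>
    have h1 : qk a r (OnePoint.infty : P1B K) = Real.log (max 1 (max ‖a‖ r)) - 0 := rfl
    rw [h1, sub_zero] at hx
    split_ifs with h
    · change 1 / max 1 ‖a‖ ≤ Real.exp (-t)
      have h2 : max 1 (max ‖a‖ r) = max 1 ‖a‖ := by
        rw [← max_assoc]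
        exact max_eq_left h
      rw [h2] at hx hM
      rw [Real.exp_neg, ← one_div]
      refine one_div_le_one_div_of_le (Real.exp_pos t) ?_
      exact (Real.le_log_iff_exp_le hM).1 hx
    · exact (Real.exp_pos _).le
  | coe y =>
    have hY := m_pos (y X)
    have hL : 0 < max (lam y a) r := lt_max_of_lt_right hr
    have h1 : qk a r ((y : BA K) : P1B K) = Real.log (max 1 (max ‖a‖ r)) -
      (Real.log (max (lam y a) r) - Real.log (max 1 (y X))) := rfl
    rw [h1] at hx
    have h2 : max (lam y a) r / (max 1 (y X) * max 1 (max ‖a‖ r)) ≤ Real.exp (-t) := by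
      rw [← Real.log_le_iff_le_exp (by positivity), Real.log_div hL.ne' (by positivity),
        Real.log_mul hY.ne' hM.ne']
      linarith
    refine le_trans ?_ h2
    split_ifs with h
    · have h3 : max 1 (max ‖a‖ r) = max 1 ‖a‖ := by
        rw [← max_assoc]
        exact max_eq_left h
      rw [h3]
      change lam y a / (max 1 (y X) * max 1 ‖a‖) ≤ _
      exact div_le_div_of_nonneg_right (le_max_left _ _) (by positivity)
    · push Not at h
      have h3 : max 1 (max ‖a‖ r) = r := by
        rw [← max_assoc]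
        exact max_eq_right h.le
      rw [h3]
      change 1 / max 1 (y X) ≤ _
      rw [div_le_div_iff₀ hY (by positivity), one_mul, mul_comm]
      exact mul_le_mul_of_nonneg_right (le_max_right _ _) hY.le

end

theorem main : S_NU.{u} → S_ATM.{u} := by
  intro hNU K _ _ _ _ ρ hρ η a r t hη hr ht hmass
  let o : ℕ → Option K := fun n => if r n ≤ max 1 ‖a n‖ then some (a n) else none
  let δ : ℕ → ℝ := fun n => Real.exp (-(t n))
  have hδ : Tendsto δ atTop (𝓝 0) := Real.tendsto_exp_atBot.comp (tendsto_neg_atTop_atBot.comp ht)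
  let D : Option K → ℝ → Set (P1B K) := fun o ε => {x | nu o x ≤ ε}
  have hDm : ∀ o ε, MeasurableSet (D o ε) := fun o ε =>
    (isClosed_le (hNU K o).1 continuous_const).measurableSet
  have hD : ∀ n, η ≤ ρ.real (D (o n) (δ n)) := fun n =>
    (hmass n).trans (measureReal_mono (fun x hx => sub_ball (a n) (r n) (t n) (hr n) x hx))
  have hD' : ∀ n, ENNReal.ofReal η ≤ ρ (D (o n) (δ n)) := by
    intro n
    rw [← ENNReal.ofReal_toReal (measure_ne_top ρ (D (o n) (δ n)))]
    exact ENNReal.ofReal_le_ofReal (hD n)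
  -- points which are in infinitely many of the sets
  let U : ℕ → Set (P1B K) := fun N => ⋃ n ∈ {n | N ≤ n}, D (o n) (δ n)
  have hUm : ∀ N, MeasurableSet (U N) := fun N =>
    MeasurableSet.biUnion (Set.to_countable _) fun n _ => hDm _ _
  have hUa : Antitone U := by
    intro N N' h
    exact Set.biUnion_mono (fun n (hn : N' ≤ n) => h.trans hn) fun _ _ => le_rfl
  have hU : ∀ N, ENNReal.ofReal η ≤ ρ (U N) := fun N =>
    (hD' N).trans (measure_mono fun _ hy => Set.mem_iUnion₂.2 ⟨N, le_refl N, hy⟩)
  have hlim := tendsto_measure_iInter_atTop (μ := ρ) (fun N => (hUm N).nullMeasurableSet) hUa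
    ⟨0, measure_ne_top ρ _⟩
  have hI : ENNReal.ofReal η ≤ ρ (⋂ N, U N) := ge_of_tendsto' hlim fun N => hU N
  have hne : (⋂ N, U N).Nonempty := by
    apply nonempty_of_measure_ne_zero (μ := ρ)
    exact ((ENNReal.ofReal_pos.2 hη).trans_le hI).ne'
  obtain ⟨x, hx⟩ := hne
  have hfr : ∃ᶠ n in atTop, nu (o n) x ≤ δ n := by
    rw [frequently_atTop]
    intro N
    have h1 := Set.mem_iInter.1 hx N
    obtain ⟨n, hn, hn2⟩ := Set.mem_iUnion₂.1 h1
    exact ⟨n, hn, hn2⟩
  obtain ⟨p, rfl⟩ := classical' x o δ hδ hfr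
  refine ⟨p, ?_⟩
  -- the balls around `pt p`
  have hball : ∀ ε : ℝ, 0 < ε → ENNReal.ofReal η ≤ ρ (D p ε) := by
    intro ε hε
    obtain ⟨n, hn, hn2⟩ := (hfr.and_eventually (hδ.eventually_lt_const hε)).exists
    refine (hD' n).trans (measure_mono fun y hy => ?_)
    exact (nu_tri p (o n) y).trans ((max_le hn hy).trans hn2.le)
  let V : ℕ → Set (P1B K) := fun k => D p (1 / ((k : ℝ) + 1))
  have hVa : Antitone V := by
    intro k k' h y hy
    refine le_trans (show nu p y ≤ 1 / ((k' : ℝ) + 1) from hy) ?_
    exact one_div_le_one_div_of_le (by positivity) (by exact_mod_cast Nat.succ_le_succ h)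
  have hlim2 := tendsto_measure_iInter_atTop (μ := ρ) (fun k => (hDm p _).nullMeasurableSet) hVa
    ⟨0, measure_ne_top ρ _⟩
  have hI2 : ENNReal.ofReal η ≤ ρ (⋂ k, V k) :=
    ge_of_tendsto' hlim2 fun k => hball _ (by positivity)
  have hsub : (⋂ k, V k) ⊆ {pt p} := by
    intro y hy
    rw [Set.mem_singleton_iff, ← (hNU K p).2.2.1 y]
    refine le_antisymm ?_ ((hNU K p).2.1 y)
    have h1 : ∀ k : ℕ, nu p y ≤ 1 / ((k : ℝ) + 1) := fun k => Set.mem_iInter.1 hy k
    exact ge_of_tendsto' tendsto_one_div_add_atTop_nhds_zero_nat h1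
  have h3 : ENNReal.ofReal η ≤ ρ {pt p} := hI2.trans (measure_mono hsub)
  exact ENNReal.toReal_pos ((ENNReal.ofReal_pos.2 hη).trans_le h3).ne' (measure_ne_top ρ _)

end Pool.Agent.W935.EQ
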